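import Pool.Agent.W420.NS.Stm

/-!
# Project NS: from the flow on the contracted graph to a flow mod 4 (NS-MOD)
-/

set_option autoImplicit false

namespace Pool.Agent.W585.NS.Mod

open Pool.Agent.W420.NS

theorem cast_ne {a : ℤ} (h0 : a ≠ 0) (h : |a| ≤ 3) : (a : ZMod 4) ≠ 0 := by
  intro h1
  rw [ZMod.intCast_zmod_eq_zero_iff_dvd] at h1
  obtain ⟨k, hk⟩ := h1
  rw [abs_le] at h
  push_cast at hk
  omega

/-- NS-MOD -/
theorem x (h : S_LIFT) : S_MOD := by
  classical
  intro V _ G C hCG hF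
  obtain ⟨f, f1, f2, f3, f4⟩ := hF
  obtain ⟨y, y1, y2, y3⟩ := h V C (fun u => -∑ v, (f u v : ZMod 4)) (by
    intro K
    have h1 := congrArg (fun a : ℤ => (a : ZMod 4)) (f4 K)
    simp only [Int.cast_sum, Int.cast_zero] at h1
    have h2 : ∑ u, (if C.connectedComponentMk u = K then -∑ v, (f u v : ZMod 4) else 0) =
        -∑ u, (((if C.connectedComponentMk u = K then ∑ v, f u v else 0 : ℤ)) : ZMod 4) := by
      rw [← Finset.sum_neg_distrib]
      refine Finset.sum_congr rfl fun u _ => ?_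
      split_ifs <;> simp
    refine Eq.trans ?_ (h2.trans ?_)
    · refine Finset.sum_congr rfl fun u _ => ?_
      congr
    · rw [neg_eq_zero]
      refine Eq.trans ?_ h1
      refine Finset.sum_congr rfl fun u _ => ?_
      congr)
  refine ⟨fun u v => y u v + (f u v : ZMod 4), ?_, ?_, ?_, ?_⟩
  · intro u v
    show y v u + (f v u : ZMod 4) = -(y u v + (f u v : ZMod 4))
    rw [y1 u v, f1 u v]
    push_cast
    ring
  · intro u v huv
    obtain ⟨g1, g2⟩ := f2 u v huv
    show y u v + (f u v : ZMod 4) ≠ 0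
    rw [y2 u v (by
      rw [SimpleGraph.sdiff_adj] at huv
      exact huv.2), zero_add]
    exact cast_ne g1 g2
  · intro u v huv
    show y u v + (f u v : ZMod 4) = 0
    rw [y2 u v fun hc => huv (hCG hc), f3 u v fun hc => huv ((SimpleGraph.sdiff_adj G C u v).1 hc).1]
    simp
  · intro u
    show ∑ v, (y u v + (f u v : ZMod 4)) = 0
    rw [Finset.sum_add_distrib, y3]
    simp

end Pool.Agent.W585.NS.Mod
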